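import Pool.Agent.helper38.AT.Spec

set_option autoImplicit false

namespace Pool.Agent.AT

open Finset Real Pool.Agent.helper39.MT Pool.Agent.helper85.FC Pool.Agent.MK

theorem QM (h1 : KSB_stmt) (h2 : COI_stmt) : QM_stmt := by
  classical
  intro k hk hbox
  obtain ⟨K, hK⟩ := hbox
  obtain ⟨C, δ, hC, hδ, hδ1, hks⟩ := h1 (max K 1) k (le_max_right _ _)
  refine ⟨C + (k : ℝ) ^ 2, δ, by positivity, hδ, hδ1, ?_⟩
  intro F L hL hF hpos
  have hinj := h2 k L F hL hF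
  have hprod : 0 ≤ ∏ i, (#(F i) : ℝ) := Finset.prod_nonneg (fun _ _ => by positivity)
  have hLd : (1 : ℝ) / L ≤ (L : ℝ) ^ (-δ) := by
    have hL1 : (1 : ℝ) ≤ L := by exact_mod_cast hL
    rw [one_div, ← Real.rpow_neg_one]
    exact Real.rpow_le_rpow_of_exponent_le hL1 (by linarith)
  have hB' : (#{f ∈ Fintype.piFinset F | (Adm f ∧ ¬ Many f) ∧ Function.Injective f} : ℝ) ≤
      C * (∏ i, (#(F i) : ℝ)) * (L : ℝ) ^ (-δ) := by
    by_contra hcon
    rw [not_le] at hcon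
    obtain ⟨H, hH1, hH2⟩ := hks (ℕ × ℤ) F L hL hF _ (Finset.filter_subset _ _) hcon
    obtain ⟨f, hf, hfM⟩ := hK H (fun i => by rw [(hH1 i).2]; exact le_max_left _ _)
      (fun i f hf => hpos i f ((hH1 i).1 hf))
      (fun f hf => ⟨((Finset.mem_filter.mp (hH2 hf)).2).1.1, ((Finset.mem_filter.mp (hH2 hf)).2).2⟩)
    exact ((Finset.mem_filter.mp (hH2 hf)).2).1.2 hfM
  have hN : (#{f ∈ Fintype.piFinset F | ¬ Function.Injective f} : ℝ) ≤
      (k : ℝ) ^ 2 * (∏ i, (#(F i) : ℝ)) * (L : ℝ) ^ (-δ) := by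
    refine le_trans (le_trans (le_of_eq ?_) hinj) ?_
    · norm_cast
    · rw [div_eq_mul_one_div]
      exact mul_le_mul_of_nonneg_left hLd (by positivity)
  have hsub : (#{f ∈ Fintype.piFinset F | Adm f ∧ ¬ Many f} : ℝ) ≤
      (#{f ∈ Fintype.piFinset F | (Adm f ∧ ¬ Many f) ∧ Function.Injective f} : ℝ) +
      (#{f ∈ Fintype.piFinset F | ¬ Function.Injective f} : ℝ) := by
    norm_cast
    refine le_trans (Finset.card_le_card ?_) (Finset.card_union_le _ _)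
    intro f hf
    rw [Finset.mem_union, Finset.mem_filter, Finset.mem_filter]
    rw [Finset.mem_filter] at hf
    by_cases hi : Function.Injective f
    · exact Or.inl ⟨hf.1, hf.2, hi⟩
    · exact Or.inr ⟨hf.1, hi⟩
  have htot : (#{f ∈ Fintype.piFinset F | Adm f ∧ ¬ Many f} : ℝ) ≤
      (C + (k : ℝ) ^ 2) * (∏ i, (#(F i) : ℝ)) * (L : ℝ) ^ (-δ) := by
    refine le_trans hsub (le_trans (add_le_add hB' hN) (le_of_eq ?_))
    ring
  refine le_trans (le_of_eq ?_) htot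
  norm_cast

end Pool.Agent.AT
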