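import Pool.Agent.helper10.QT.SpecX

set_option autoImplicit false

namespace Pool.Agent.AT

open Finset Pool.Agent.helper85.FC

theorem THG_seq (P : ℕ → ℤ → Prop) (h : ∀ K : ℕ, ∃ M ≥ K, ∃ u, P M u) (g : ℕ → ℤ → ℕ) (K0 : ℕ) :
    ∃ (M : Fin 4 → ℕ) (u : Fin 4 → ℤ), K0 ≤ M 0 ∧ (∀ j, P (M j) (u j)) ∧
      ∀ i j, i < j → g (M i) (u i) ≤ M j := by
  choose f hf v hv using h
  obtain ⟨K1, hK1⟩ : ∃ K1, K1 = g (f K0) (v K0) := ⟨_, rfl⟩
  obtain ⟨K2, hK2⟩ : ∃ K2, K2 = max K1 (g (f K1) (v K1)) := ⟨_, rfl⟩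
  obtain ⟨K3, hK3⟩ : ∃ K3, K3 = max K2 (g (f K2) (v K2)) := ⟨_, rfl⟩
  have e1 := hf K1
  have e2 := hf K2
  have e3 := hf K3
  have l2 : K1 ≤ K2 := by rw [hK2]; exact le_max_left _ _
  have l2' : g (f K1) (v K1) ≤ K2 := by rw [hK2]; exact le_max_right _ _
  have l3 : K2 ≤ K3 := by rw [hK3]; exact le_max_left _ _
  have l3' : g (f K2) (v K2) ≤ K3 := by rw [hK3]; exact le_max_right _ _
  refine ⟨![f K0, f K1, f K2, f K3], ![v K0, v K1, v K2, v K3], hf K0, ?_, ?_⟩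
  · intro j
    fin_cases j
    · exact hv K0
    · exact hv K1
    · exact hv K2
    · exact hv K3
  · intro i j hij
    fin_cases i <;> fin_cases j <;> simp at hij ⊢ <;> omega

theorem THG_dif {c : ℤ} (h : TrueCase 1 1 c) : c ≠ 0 ∧ Dif c := by
  obtain ⟨-, -, h0, -, -, -, -, hinf⟩ := h
  refine ⟨h0, ?_⟩
  unfold Dif
  refine hinf.mono ?_
  rintro ⟨p, q⟩ ⟨h1, h2, h3⟩
  refine ⟨h1, h2, ?_⟩
  simpa using h3

theorem THG_neg {c : ℤ} (h : Dif c) : Dif (-c) := by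
  unfold Dif at h ⊢
  have h2 := h.image (f := Prod.swap) (Prod.swap_injective.injOn)
  refine h2.mono ?_
  rintro ⟨p, q⟩ ⟨⟨p', q'⟩, ⟨h3, h4, h5⟩, h6⟩
  simp only [Prod.swap_prod_mk, Prod.mk.injEq] at h6
  obtain ⟨rfl, rfl⟩ := h6
  refine ⟨h4, h3, ?_⟩
  simp only at h5 ⊢
  omega

theorem THG_pair {x y : ℤ} (h : Pair (1, x) (1, y)) : x - y ≠ 0 ∧ Dif (x - y) := by
  unfold Pair at h
  simp at h
  exact THG_dif h

theorem THG (h1 : THM_stmt) (h2 : THC_stmt) : THG_stmt := by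
  classical
  intro hQ m hm ε hε
  obtain ⟨C, δ, hC, hδ, hδ1, hQ⟩ := hQ
  obtain ⟨ε', hε'⟩ : ∃ ε' : ℝ, ε' = min ε (1 / 3) := ⟨_, rfl⟩
  have hε'0 : 0 < ε' := by rw [hε']; exact lt_min hε (by norm_num)
  have hε'1 : ε' ≤ ε := by rw [hε']; exact min_le_left _ _
  have hε'2 : ε' ≤ 1 / 3 := by rw [hε']; exact min_le_right _ _
  by_contra hcon
  push Not at hcon
  have hbad : ∀ K : ℕ, ∃ M ≥ K, ∃ u : ℤ,
      (#{c ∈ Ioc u (u + M) | c ≠ 0 ∧ Dif (2 * m * c)} : ℝ) ≤ (1 / 3 - ε') * M := by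
    intro K
    obtain ⟨M, hM, u, hu⟩ := hcon K
    refine ⟨M, hM, u, ?_⟩
    have h3 : (0 : ℝ) ≤ (M : ℝ) := Nat.cast_nonneg M
    have h4 : (#{c ∈ Ioc u (u + M) | c ≠ 0 ∧ Dif (2 * m * c)} : ℝ) < (1 / 3 - ε) * M := by
      refine lt_of_le_of_lt (le_of_eq ?_) hu
      norm_cast
    nlinarith [mul_le_mul_of_nonneg_right hε'1 h3]
  obtain ⟨η, hη⟩ : ∃ η : ℝ, η = ε' / 2 := ⟨_, rfl⟩
  have hη0 : 0 < η := by rw [hη]; linarith
  have hη1 : η ≤ 1 / 6 := by rw [hη]; linarith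
  obtain ⟨X0, hX0⟩ : ∃ X0 : ℝ, ∀ x ≥ X0, C * x ^ (-δ) < (η / 2) ^ 3 / 12 := by
    have h3 : Filter.Tendsto (fun x : ℝ => C * x ^ (-δ)) Filter.atTop (nhds (C * 0)) :=
      (tendsto_rpow_neg_atTop hδ).const_mul C
    rw [mul_zero] at h3
    have h4 := h3.eventually (gt_mem_nhds (show (0 : ℝ) < (η / 2) ^ 3 / 12 by positivity))
    exact Filter.eventually_atTop.mp h4
  obtain ⟨M, u, hM0, hP, hg⟩ := THG_seq
    (fun M u => (#{c ∈ Ioc u (u + M) | c ≠ 0 ∧ Dif (2 * m * c)} : ℝ) ≤ (1 / 3 - ε') * M) hbad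
    (fun M u => ⌈24 * (|((2 * u : ℤ) : ℝ)| + (2 * M : ℝ) + 1) / η⌉₊) (max 1 (max ⌈X0⌉₊ ⌈24 / η⌉₊))
  have hM01 : 1 ≤ M 0 := le_trans (le_max_left _ _) hM0
  have hM02 : X0 ≤ (M 0 : ℝ) := le_trans (Nat.le_ceil _)
    (by exact_mod_cast le_trans (le_trans (le_max_left _ _) (le_max_right _ _)) hM0)
  have hM03 : 24 / η ≤ (M 0 : ℝ) := le_trans (Nat.le_ceil _)
    (by exact_mod_cast le_trans (le_trans (le_max_right _ _) (le_max_right _ _)) hM0)
  have hgr : ∀ i j : Fin 4, i < j → 24 * (|((2 * u i : ℤ) : ℝ)| + (2 * M i : ℝ) + 1) ≤ η * M j := by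
    intro i j hij
    have h3 : 24 * (|((2 * u i : ℤ) : ℝ)| + (2 * M i : ℝ) + 1) / η ≤ (M j : ℝ) :=
      le_trans (Nat.le_ceil _) (by exact_mod_cast hg i j hij)
    rw [div_le_iff₀ hη0] at h3
    linarith
  have hMnn : ∀ j, (0 : ℝ) ≤ (M j : ℝ) := fun j => Nat.cast_nonneg _
  have hmono : ∀ j, M 0 ≤ M j := by
    intro j
    rcases eq_or_ne j 0 with rfl | hj
    · exact le_refl _
    · have h3 := hgr 0 j (Fin.pos_of_ne_zero hj)
      have h4 : (0 : ℝ) ≤ |((2 * u 0 : ℤ) : ℝ)| := abs_nonneg _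
      have h5 : (M 0 : ℝ) ≤ (M j : ℝ) := by
        nlinarith [hMnn 0, hMnn j, mul_le_mul_of_nonneg_right hη1 (hMnn j)]
      exact_mod_cast h5
  have hTs : ∀ c : ℤ, (c ≠ 0 ∧ Dif (m * c)) → (-c ≠ 0 ∧ Dif (m * (-c))) := by
    rintro c ⟨hc, hd⟩
    refine ⟨neg_ne_zero.mpr hc, ?_⟩
    rw [mul_neg]
    exact THG_neg hd
  have hm0 : (m : ℤ) ≠ 0 := by exact_mod_cast (by omega : m ≠ 0)
  obtain ⟨u', hu'⟩ := h2 (fun c => c ≠ 0 ∧ Dif (m * c)) η (fun j => 2 * u j) (fun j => 2 * M j)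
    (by
      intro c
      refine ⟨fun h => ?_, fun h => hTs c h⟩
      have h3 := hTs (-c) h
      rwa [neg_neg] at h3)
    hη0 hη1
    (by
      rw [div_le_iff₀ hη0] at hM03
      push_cast
      nlinarith [hMnn 0])
    (by
      intro i j hij
      have h3 := hgr i j hij
      have h4 := hMnn j
      have h5 : 0 ≤ η * M j := by positivity
      push_cast at h3 ⊢
      linarith)
    (by
      intro j
      have h3 := hP j
      have h4 : (#{c ∈ Ioc (2 * u j) (2 * u j + ((2 * M j : ℕ) : ℤ)) | (c ≠ 0 ∧ Dif (m * c)) ∧ (2 : ℤ) ∣ c} : ℝ) ≤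
          (#{c ∈ Ioc (u j) (u j + M j) | c ≠ 0 ∧ Dif (2 * m * c)} : ℝ) := by
        norm_cast
        have h5 : {c ∈ Ioc (2 * u j) (2 * u j + ((2 * M j : ℕ) : ℤ)) | (c ≠ 0 ∧ Dif (m * c)) ∧ (2 : ℤ) ∣ c} ⊆
            ({c ∈ Ioc (u j) (u j + M j) | c ≠ 0 ∧ Dif (2 * m * c)}).image (fun c => 2 * c) := by
          intro c hc
          rw [Finset.mem_filter, Finset.mem_Ioc] at hc
          obtain ⟨⟨h6, h7⟩, ⟨h8, h9⟩, ⟨e, rfl⟩⟩ := hc
          rw [Finset.mem_image]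
          refine ⟨e, ?_, rfl⟩
          rw [Finset.mem_filter, Finset.mem_Ioc]
          push_cast at h7
          refine ⟨⟨by omega, by omega⟩, by omega, ?_⟩
          have h10 : (2 * m * e : ℤ) = m * (2 * e) := by ring
          rw [h10]
          exact h9
        exact le_trans (Finset.card_le_card h5) Finset.card_image_le
      have h6 : (1 / 3 - ε') * (M j : ℝ) = (1 / 6 - η) * ((2 * M j : ℕ) : ℝ) := by
        rw [hη]
        push_cast
        ring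
      rw [← h6]
      refine le_trans (le_trans (le_of_eq ?_) h4) h3
      norm_cast)
  obtain ⟨F, hF⟩ : ∃ F : Fin 4 → Finset (ℕ × ℤ), F = fun j => (Ioc (u' j) (u' j + ((2 * M j : ℕ) : ℤ))).image
    (fun x : ℤ => ((1 : ℕ), (m : ℤ) * x)) := ⟨_, rfl⟩
  have hFc : ∀ j, #(F j) = 2 * M j := by
    intro j
    rw [hF]
    simp only
    rw [Finset.card_image_of_injective]
    · rw [Int.card_Ioc]
      omega
    · intro x y hxy
      simp only [Prod.mk.injEq, true_and] at hxy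
      exact mul_left_cancel₀ hm0 hxy
  have hq := hQ F (2 * M 0) (by omega) (by
    intro j
    rw [hFc]
    have := hmono j
    omega) (by
    intro i f hf
    rw [hF] at hf
    simp only [Finset.mem_image] at hf
    obtain ⟨x, -, rfl⟩ := hf
    exact Nat.one_pos)
  have hle : (#{h ∈ Fintype.piFinset (fun j => Ioc (u' j) (u' j + ((2 * M j : ℕ) : ℤ))) |
      ((6 : ℤ) ∣ h 0 ∧ (6 : ℤ) ∣ h 1 ∧ (6 : ℤ) ∣ h 2 - 4 ∧ (6 : ℤ) ∣ h 3 - 4) ∧
      ∀ i j, i < j → ¬ (h j - h i ≠ 0 ∧ Dif (m * (h j - h i)))} : ℝ) ≤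
      (#{f ∈ Fintype.piFinset F | Adm f ∧ ∀ i j, i ≠ j → ¬ Pair (f i) (f j)} : ℝ) := by
    norm_cast
    refine Finset.card_le_card_of_injOn (fun h i => ((1 : ℕ), (m : ℤ) * h i)) ?_ ?_
    · intro h hh
      rw [Finset.mem_coe, Finset.mem_filter, Fintype.mem_piFinset] at hh
      obtain ⟨h3, ⟨h4, h5, h6, h7⟩, h8⟩ := hh
      rw [Finset.mem_coe, Finset.mem_filter, Fintype.mem_piFinset]
      refine ⟨?_, h1 m h h4 h5 h6 h7, ?_⟩
      · intro j
        rw [hF]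
        exact Finset.mem_image_of_mem _ (h3 j)
      · have h9 : ∀ i j : Fin 4, i < j → ¬ Dif (m * (h j - h i)) ∨ h j - h i = 0 := by
          intro i j hij
          have h10 := h8 i j hij
          by_contra h11
          push Not at h11
          exact h10 ⟨h11.2, h11.1⟩
        intro i j hij hpair
        obtain ⟨h10, h11⟩ := THG_pair hpair
        rw [← mul_sub] at h10 h11
        have h12 : h i - h j ≠ 0 := fun h => h10 (by rw [h, mul_zero])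
        rcases lt_or_gt_of_ne hij with h13 | h13
        · rcases h9 i j h13 with h14 | h14
          · have h15 := THG_neg h11
            rw [← mul_neg, neg_sub] at h15
            exact h14 h15
          · omega
        · rcases h9 j i h13 with h14 | h14
          · exact h14 h11
          · omega
    · intro h _ h' _ heq
      funext i
      have h3 := congrFun heq i
      simp only [Prod.mk.injEq, true_and] at h3
      exact mul_left_cancel₀ hm0 h3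
  have hfin : (η / 2) ^ 3 / 12 * ∏ j, ((2 * M j : ℕ) : ℝ) ≤
      C * (∏ j, ((2 * M j : ℕ) : ℝ)) * ((2 * M 0 : ℕ) : ℝ) ^ (-δ) := by
    refine le_trans (le_trans hu' (le_trans (le_of_eq ?_) hle)) (le_trans (le_trans (le_of_eq ?_) hq) (le_of_eq ?_))
    · norm_cast
    · norm_cast
    · simp only [hFc]
  have hprod : 0 < ∏ j, ((2 * M j : ℕ) : ℝ) := by
    refine Finset.prod_pos ?_
    intro j _
    have := hmono j
    have h3 : 0 < 2 * M j := by omega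
    exact_mod_cast h3
  have hlast := hX0 ((2 * M 0 : ℕ) : ℝ) (by
    push_cast
    have := hMnn 0
    have h3 : (1 : ℝ) ≤ (M 0 : ℝ) := by exact_mod_cast hM01
    rcases le_or_gt 0 X0 with h4 | h4 <;> linarith)
  have hmul := mul_lt_mul_of_pos_right hlast hprod
  linarith

end Pool.Agent.AT
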